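import Pool.Agent.Helper99.DF.St

/-!
# Project DF (MP_d49380_lc), module BOX: existence of the numerical part of a certificate
-/

set_option autoImplicit false

namespace Pool.Agent.Helper17.DF

open Filter Topology Pool.Agent.Helper99.DF

lemma ex_map (n : ℕ) (f : ℕ → ℕ) {k : ℕ} (hk : k < n) : ex ((List.range n).map f) k = f k := by
  unfold ex
  rw [List.getD_eq_getElem _ _ (by simpa using hk)]
  simp

lemma min_list {α : Type} (l : List α) (Pr : α → ℝ → Prop)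
    (h : ∀ a ∈ l, ∃ r : ℝ, 0 < r ∧ ∀ r', 0 < r' → r' ≤ r → Pr a r') :
    ∃ r : ℝ, 0 < r ∧ ∀ r', 0 < r' → r' ≤ r → ∀ a ∈ l, Pr a r' := by
  induction l with
  | nil => exact ⟨1, one_pos, fun r' _ _ a ha => absurd ha (by simp)⟩
  | cons x l ih =>
    obtain ⟨r1, h1, h1'⟩ := h x (by simp)
    obtain ⟨r2, h2, h2'⟩ := ih (fun a ha => h a (by simp [ha]))
    refine ⟨min r1 r2, lt_min h1 h2, fun r' hr hr' a ha => ?_⟩
    rcases List.mem_cons.1 ha with h | h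
    · rw [h]; exact h1' r' hr (hr'.trans (min_le_left _ _))
    · exact h2' r' hr (hr'.trans (min_le_right _ _)) a h

lemma bound_list {α : Type} (l : List α) (f : α → ℕ) : ∃ B : ℕ, ∀ a ∈ l, f a ≤ B := by
  induction l with
  | nil => exact ⟨0, fun a ha => absurd ha (by simp)⟩
  | cons x l ih =>
    obtain ⟨B, hB⟩ := ih
    refine ⟨max (f x) B, fun a ha => ?_⟩
    rcases List.mem_cons.1 ha with h | h
    · rw [h]; exact le_max_left _ _
    · exact (hB a h).trans (le_max_right _ _)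

/-- isolated zeros -/
lemma iso (q : Polynomial ℤ) (hq : q ≠ 0) (a : ℝ) :
    ∃ r : ℝ, 0 < r ∧ ∀ Y : ℝ, 0 < |Y - a| → |Y - a| ≤ r → Polynomial.aeval Y q ≠ 0 := by
  have hq' : q.map (Int.castRingHom ℝ) ≠ 0 :=
    (Polynomial.map_ne_zero_iff Int.cast_injective).2 hq
  obtain ⟨R, hR⟩ : ∃ R : Set ℝ, R = {x | (q.map (Int.castRingHom ℝ)).IsRoot x} \ {a} := ⟨_, rfl⟩
  have hfin : R.Finite := by
    rw [hR]
    exact (Polynomial.finite_setOfPred_isRoot hq').subset Set.sdiff_subset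
  have ha : a ∈ Rᶜ := by rw [hR]; simp
  obtain ⟨r, hr, hball⟩ := Metric.isOpen_iff.1 hfin.isClosed.isOpen_compl a ha
  refine ⟨r / 2, by positivity, fun Y h0 h1 h2 => ?_⟩
  have hY : Y ∈ Metric.ball a r := by
    rw [Metric.mem_ball, Real.dist_eq]; linarith
  apply hball hY
  rw [hR]
  refine ⟨?_, ?_⟩
  · show Polynomial.IsRoot _ _
    rw [Polynomial.IsRoot.def, Polynomial.eval_map]
    exact h2
  · intro h
    rw [Set.mem_singleton_iff] at h
    rw [h, sub_self, abs_zero] at h0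
    exact lt_irrefl _ h0

/-- lower bound on a shell -/
lemma shell (q : Polynomial ℤ) (a ε κ : ℝ) (hε : 0 < ε)
    (h : ∀ Y : ℝ, 0 < |Y - a| → |Y - a| ≤ κ → Polynomial.aeval Y q ≠ 0) :
    ∃ r : ℝ, 0 < r ∧ ∀ r', 0 < r' → r' ≤ r → ∀ Y : ℝ, ε ≤ |Y - a| → |Y - a| ≤ κ →
      r' ≤ |Polynomial.aeval Y q| := by
  obtain ⟨Sh, hSh⟩ : ∃ Sh : Set ℝ, Sh = Metric.closedBall a κ ∩ {Y | ε ≤ |Y - a|} := ⟨_, rfl⟩
  have hc : IsCompact Sh := by
    rw [hSh]
    refine (isCompact_closedBall a κ).inter_right ?_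
    exact isClosed_le continuous_const (by fun_prop)
  have hcont : Continuous (fun Y : ℝ => |Polynomial.aeval Y q|) :=
    (Polynomial.continuous_aeval q).abs
  rcases Set.eq_empty_or_nonempty Sh with he | hne
  · refine ⟨1, one_pos, fun r' _ _ Y h1 h2 => ?_⟩
    have : Y ∈ Sh := by
      rw [hSh]; exact ⟨by rw [Metric.mem_closedBall, Real.dist_eq]; exact h2, h1⟩
    rw [he] at this
    exact absurd this (by simp)
  · obtain ⟨Y0, hY0, hmin⟩ := hc.exists_isMinOn hne hcont.continuousOn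
    have hY0' : 0 < |Y0 - a| ∧ |Y0 - a| ≤ κ := by
      rw [hSh] at hY0
      refine ⟨lt_of_lt_of_le hε hY0.2, ?_⟩
      have := hY0.1
      rwa [Metric.mem_closedBall, Real.dist_eq] at this
    refine ⟨|Polynomial.aeval Y0 q|, abs_pos.2 (h Y0 hY0'.1 hY0'.2), fun r' _ hr' Y h1 h2 => ?_⟩
    refine hr'.trans (hmin ?_)
    rw [hSh]; exact ⟨by rw [Metric.mem_closedBall, Real.dist_eq]; exact h2, h1⟩

/-- continuity of the two inequalities -/
lemma contin (p p1 p2 κ : ℝ) (_ : 0 < p) (h1 : p < 1) (hκ : 0 < κ)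
    (hf : p * (1 - p1) * (1 - p2) = (1 - p) ^ 2) :
    ∃ r : ℝ, 0 < r ∧ ∀ r', 0 < r' → r' ≤ r → ∀ y a b : ℝ, |y - p| ≤ 2 * r' → |a - p1| ≤ 2 * r' →
      |b - p2| ≤ 2 * r' → (p - κ / 2) * (1 - y) ^ 2 ≤ y ^ 2 * ((1 - a) * (1 - b)) ∧
        y ^ 2 * ((1 - a) * (1 - b)) ≤ (p + κ / 2) * (1 - y) ^ 2 := by
  have hpos : 0 < (1 - p) ^ 2 := by
    have : 0 < 1 - p := by linarith
    positivity
  have hbase : p ^ 2 * ((1 - p1) * (1 - p2)) = p * (1 - p) ^ 2 := by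
    rw [← hf]; ring
  have hA : ∀ᶠ v : ℝ × ℝ × ℝ in 𝓝 (p, p1, p2),
      (p - κ / 2) * (1 - v.1) ^ 2 < v.1 ^ 2 * ((1 - v.2.1) * (1 - v.2.2)) := by
    refine ContinuousAt.eventually_lt (f := fun v : ℝ × ℝ × ℝ => (p - κ / 2) * (1 - v.1) ^ 2)
      (g := fun v : ℝ × ℝ × ℝ => v.1 ^ 2 * ((1 - v.2.1) * (1 - v.2.2)))
      (by fun_prop) (by fun_prop) ?_
    show (p - κ / 2) * (1 - p) ^ 2 < p ^ 2 * ((1 - p1) * (1 - p2))
    rw [hbase]
    nlinarith
  have hB : ∀ᶠ v : ℝ × ℝ × ℝ in 𝓝 (p, p1, p2),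
      v.1 ^ 2 * ((1 - v.2.1) * (1 - v.2.2)) < (p + κ / 2) * (1 - v.1) ^ 2 := by
    refine ContinuousAt.eventually_lt
      (f := fun v : ℝ × ℝ × ℝ => v.1 ^ 2 * ((1 - v.2.1) * (1 - v.2.2)))
      (g := fun v : ℝ × ℝ × ℝ => (p + κ / 2) * (1 - v.1) ^ 2)
      (by fun_prop) (by fun_prop) ?_
    show p ^ 2 * ((1 - p1) * (1 - p2)) < (p + κ / 2) * (1 - p) ^ 2
    rw [hbase]
    nlinarith
  obtain ⟨r, hr, hball⟩ := Metric.eventually_nhds_iff.1 (hA.and hB)
  refine ⟨r / 4, by positivity, fun r' hr' hr'' y a b hy ha hb => ?_⟩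
  have hd : dist (y, a, b) (p, p1, p2) < r := by
    rw [Prod.dist_eq, Prod.dist_eq]
    refine max_lt ?_ (max_lt ?_ ?_)
    · rw [Real.dist_eq]; show |y - p| < r; linarith
    · rw [Real.dist_eq]; show |a - p1| < r; linarith
    · rw [Real.dist_eq]; show |b - p2| < r; linarith
  have := hball hd
  exact ⟨this.1.le, this.2.le⟩

/-- the leading polynomial and `P0` -/
lemma P0_eq (Zs : List ℕ) (i N X m : ℕ) (hX : 0 < X) (ga : List ℕ) (p : Pol)
    (h : ∀ ce ∈ p, ex ce.2 i ≤ N) :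
    ((P0 Zs i N X m ga p : ℤ) : ℝ) =
      (X : ℝ) ^ N * Polynomial.aeval ((m : ℝ) / X) (lp Zs i ga p) := by
  have hX' : (X : ℝ) ≠ 0 := Nat.cast_ne_zero.2 hX.ne'
  induction p with
  | nil => simp [P0, Pool.Agent.Helper99.DF.lp]
  | cons ce p ih =>
    have ih' := ih (fun c hc => h c (by simp [hc]))
    have hce := h ce (by simp)
    have e1 : P0 Zs i N X m ga (ce :: p) =
        (if (∀ k ∈ Zs, ex ce.2 k = ex ga k) then
          ce.1 * (m : ℤ) ^ (ex ce.2 i) * (X : ℤ) ^ (N - ex ce.2 i) else 0) + P0 Zs i N X m ga p := by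
      simp only [P0, List.map_cons, List.sum_cons]
    have e2 : lp Zs i ga (ce :: p) =
        (if (∀ k ∈ Zs, ex ce.2 k = ex ga k) then
          Polynomial.C ce.1 * Polynomial.X ^ (ex ce.2 i) else 0) + lp Zs i ga p := by
      simp only [Pool.Agent.Helper99.DF.lp, List.map_cons, List.sum_cons]
    rw [e1, e2, Int.cast_add, ih', map_add, mul_add]
    congr 1
    by_cases hc : ∀ k ∈ Zs, ex ce.2 k = ex ga k
    · rw [if_pos hc, if_pos hc]
      have e0 : Polynomial.aeval ((m : ℝ) / X) (Polynomial.C ce.1) = ((ce.1 : ℤ) : ℝ) := by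
        rw [Polynomial.aeval_C]; simp
      rw [map_mul, map_pow, e0, Polynomial.aeval_X]
      simp only [Int.cast_mul, Int.cast_pow, Int.cast_natCast]
      have e3 : (X : ℝ) ^ N = (X : ℝ) ^ (N - ex ce.2 i) * (X : ℝ) ^ (ex ce.2 i) := by
        rw [← pow_add]; congr 1; omega
      rw [e3, div_pow]
      field_simp
    · rw [if_neg hc, if_neg hc]
      simp

theorem hBOX : StBOX := by
  classical
  intro n N Zs ents p H1 H2 H3 H4 H5 H6
  -- kappa
  obtain ⟨κ0, hκ0, hκ0'⟩ := min_list ents (fun en κ => κ < p en.1 ∧ κ < 1 - p en.1 ∧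
    ∀ Y : ℝ, 0 < |Y - p en.1| → |Y - p en.1| ≤ κ →
      Polynomial.aeval Y (lp Zs en.1 en.2.1 en.2.2) ≠ 0) (by
    intro en hen
    obtain ⟨r, hr, hr'⟩ := iso _ (H6 en hen) (p en.1)
    obtain ⟨h0, h1⟩ := H2 en hen
    refine ⟨min r (min (p en.1 / 2) ((1 - p en.1) / 2)), ?_, ?_⟩
    · exact lt_min hr (lt_min (by linarith) (by linarith))
    · intro r' hr0 hr1
      have a1 := hr1.trans (min_le_left _ _)
      have a2 := hr1.trans ((min_le_right _ _).trans (min_le_left _ _))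
      have a3 := hr1.trans ((min_le_right _ _).trans (min_le_right _ _))
      exact ⟨by linarith, by linarith, fun Y hY1 hY2 => hr' Y hY1 (hY2.trans a1)⟩)
  obtain ⟨κ, hκdef⟩ : ∃ κ, κ = min κ0 1 := ⟨_, rfl⟩
  have hκ : 0 < κ := by rw [hκdef]; exact lt_min hκ0 one_pos
  have hκ1 : κ ≤ 1 := by rw [hκdef]; exact min_le_right _ _
  have hκ' := hκ0' κ hκ (by rw [hκdef]; exact min_le_left _ _)
  -- epsilon
  obtain ⟨ε0, hε0, hε0'⟩ := min_list ents (fun en ε => ∀ y a b : ℝ, |y - p en.1| ≤ 2 * ε →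
      |a - p (en.1 - 1)| ≤ 2 * ε → |b - p (en.1 + 1)| ≤ 2 * ε →
      (p en.1 - κ / 2) * (1 - y) ^ 2 ≤ y ^ 2 * ((1 - a) * (1 - b)) ∧
        y ^ 2 * ((1 - a) * (1 - b)) ≤ (p en.1 + κ / 2) * (1 - y) ^ 2) (by
    intro en hen
    obtain ⟨h0, h1⟩ := H2 en hen
    exact contin _ _ _ κ h0 h1 hκ (H4 en hen))
  obtain ⟨ε, hεdef⟩ : ∃ ε, ε = min ε0 (κ / 8) := ⟨_, rfl⟩
  have hε : 0 < ε := by rw [hεdef]; exact lt_min hε0 (by positivity)
  have hεκ : ε ≤ κ / 8 := by rw [hεdef]; exact min_le_right _ _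
  have hε' := hε0' ε hε (by rw [hεdef]; exact min_le_left _ _)
  -- m0
  obtain ⟨m0, hm0, hm0'⟩ := min_list ents (fun en r => ∀ Y : ℝ, ε ≤ |Y - p en.1| →
      |Y - p en.1| ≤ κ → r ≤ |Polynomial.aeval Y (lp Zs en.1 en.2.1 en.2.2)|) (by
    intro en hen
    exact shell _ _ ε κ hε (hκ' en hen).2.2)
  have hm1 := hm0' m0 hm0 le_rfl
  -- the norms
  obtain ⟨ν, hν⟩ := bound_list ents (fun en => nrm en.2.2)
  obtain ⟨Cc, hCc⟩ : ∃ Cc : ℕ, 4 / κ ^ 2 ≤ Cc := ⟨⌈4 / κ ^ 2⌉₊, Nat.le_ceil _⟩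
  have hCc1 : (1 : ℝ) ≤ Cc := by
    refine le_trans ?_ hCc
    rw [le_div_iff₀ (by positivity)]
    nlinarith
  obtain ⟨δ, hδdef⟩ : ∃ δ : ℝ, δ = min (2 * ε) (min (m0 / (2 * (ν + 1)))
    (1 / (Cc : ℝ) ^ (2 * N * Zs.length + 1))) := ⟨_, rfl⟩
  have hCcp : (0 : ℝ) < (Cc : ℝ) ^ (2 * N * Zs.length + 1) := by
    have : (0 : ℝ) < Cc := by linarith
    positivity
  have hδ : 0 < δ := by
    rw [hδdef]
    exact lt_min (by positivity) (lt_min (by positivity) (by positivity))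
  have hδ1 : δ ≤ 2 * ε := by rw [hδdef]; exact min_le_left _ _
  have hδ2 : δ ≤ m0 / (2 * (ν + 1)) := by
    rw [hδdef]; exact (min_le_right _ _).trans (min_le_left _ _)
  have hδ3 : δ ≤ 1 / (Cc : ℝ) ^ (2 * N * Zs.length + 1) := by
    rw [hδdef]; exact (min_le_right _ _).trans (min_le_right _ _)
  have hδν : δ * ν < m0 / 2 := by
    have h1 : δ * (2 * (ν + 1)) ≤ m0 := (le_div_iff₀ (by positivity)).1 hδ2
    nlinarith
  have hδC : δ * (Cc : ℝ) ^ (2 * N * Zs.length + 1) ≤ 1 := (le_div_iff₀ hCcp).1 hδ3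
  -- D
  obtain ⟨D, hDdef⟩ : ∃ D : ℕ, D = ⌈1 / δ⌉₊ + ⌈1 / ε⌉₊ + 1 := ⟨_, rfl⟩
  have hD0 : 0 < D := by omega
  have hDδ : 1 ≤ δ * D := by
    have h1 : 1 / δ ≤ D := by
      refine (Nat.le_ceil _).trans ?_
      rw [hDdef]; push_cast
      have : (0 : ℝ) ≤ (⌈1 / ε⌉₊ : ℝ) := Nat.cast_nonneg _
      linarith
    rwa [div_le_iff₀ hδ, mul_comm] at h1
  have hDε : 1 ≤ ε * D := by
    have h1 : 1 / ε ≤ D := by
      refine (Nat.le_ceil _).trans ?_
      rw [hDdef]; push_cast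
      have : (0 : ℝ) ≤ (⌈1 / δ⌉₊ : ℝ) := Nat.cast_nonneg _
      linarith
    rwa [div_le_iff₀ hε, mul_comm] at h1
  have hDR : (0 : ℝ) < D := Nat.cast_pos.2 hD0
  obtain ⟨e0, he0def⟩ : ∃ e0 : ℕ, e0 = ⌊δ * D⌋₊ := ⟨_, rfl⟩
  have he0 : 0 < e0 := by
    rw [he0def]
    exact Nat.floor_pos.2 hDδ
  have he0' : (e0 : ℝ) ≤ δ * D := by
    rw [he0def]; exact Nat.floor_le (by positivity)
  obtain ⟨Mg, hMgdef⟩ : ∃ Mg : ℕ, Mg = ⌈2 * N * ν / m0⌉₊ + 1 := ⟨_, rfl⟩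
  have hMg0 : 0 < Mg := by omega
  have hMgR : (0 : ℝ) < Mg := Nat.cast_pos.2 hMg0
  have hMg : (N : ℝ) * ν ≤ m0 / 2 * Mg := by
    have h1 : 2 * N * ν / m0 ≤ (Mg : ℝ) := by
      refine (Nat.le_ceil _).trans ?_
      rw [hMgdef]; push_cast; linarith
    rw [div_le_iff₀ hm0] at h1
    linarith
  -- the lists
  obtain ⟨En, hEn⟩ : ∃ En : ℕ → Prop, En = fun k => ∃ en ∈ ents, en.1 = k := ⟨_, rfl⟩
  obtain ⟨lf, hlf⟩ : ∃ lf : ℕ → ℕ, lf = fun k => if En k then ⌊(D : ℝ) * (p k - ε)⌋₊ else 0 := ⟨_, rfl⟩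
  obtain ⟨hf, hhf⟩ : ∃ hf : ℕ → ℕ, hf = fun k => if En k then ⌊(D : ℝ) * (p k + 2 * ε)⌋₊ else
    if (∃ z ∈ Zs, z = k) then e0 else 0 := ⟨_, rfl⟩
  obtain ⟨lf2, hlf2⟩ : ∃ lf2 : ℕ → ℕ, lf2 = fun k => ⌊(D : ℝ) * (p k - κ / 2)⌋₊ := ⟨_, rfl⟩
  obtain ⟨hf2, hhf2⟩ : ∃ hf2 : ℕ → ℕ, hf2 = fun k => ⌊(D : ℝ) * (p k + κ)⌋₊ := ⟨_, rfl⟩
  -- bounds at the entries
  have pen : ∀ k, En k → 0 < p k ∧ p k < 1 ∧ κ < p k ∧ κ < 1 - p k := by
    intro k hk
    rw [hEn] at hk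
    obtain ⟨en, hen, rfl⟩ := hk
    exact ⟨(H2 en hen).1, (H2 en hen).2, (hκ' en hen).1, (hκ' en hen).2.1⟩
  have pz : ∀ k, ¬ En k → p k = 0 := by
    intro k hk
    rw [hEn] at hk
    exact H3 k hk
  have lf_bd : ∀ k, En k → (D : ℝ) * (p k - 2 * ε) < lf k ∧ (lf k : ℝ) ≤ D * (p k - ε) := by
    intro k hk
    obtain ⟨h1, h2, h3, h4⟩ := pen k hk
    rw [hlf]
    simp only [if_pos hk]
    constructor
    · have := Nat.sub_one_lt_floor ((D : ℝ) * (p k - ε))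
      nlinarith
    · exact Nat.floor_le (mul_nonneg hDR.le (by linarith))
  have hf_bd : ∀ k, En k → (D : ℝ) * (p k + ε) < hf k ∧ (hf k : ℝ) ≤ D * (p k + 2 * ε) := by
    intro k hk
    obtain ⟨h1, h2, h3, h4⟩ := pen k hk
    rw [hhf]
    simp only [if_pos hk]
    constructor
    · have := Nat.sub_one_lt_floor ((D : ℝ) * (p k + 2 * ε))
      nlinarith
    · exact Nat.floor_le (mul_nonneg hDR.le (by linarith))
  have lf2_bd : ∀ k, En k → (D : ℝ) * (p k - κ) < lf2 k ∧ (lf2 k : ℝ) ≤ D * (p k - κ / 2) := by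
    intro k hk
    obtain ⟨h1, h2, h3, h4⟩ := pen k hk
    rw [hlf2]
    constructor
    · have := Nat.sub_one_lt_floor ((D : ℝ) * (p k - κ / 2))
      nlinarith
    · exact Nat.floor_le (mul_nonneg hDR.le (by linarith))
  have hf2_bd : ∀ k, En k → (D : ℝ) * (p k + κ / 2) < hf2 k ∧ (hf2 k : ℝ) ≤ D * (p k + κ) := by
    intro k hk
    obtain ⟨h1, h2, h3, h4⟩ := pen k hk
    rw [hhf2]
    constructor
    · have := Nat.sub_one_lt_floor ((D : ℝ) * (p k + κ))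
      nlinarith
    · exact Nat.floor_le (mul_nonneg hDR.le (by linarith))
  have lf0 : ∀ k, ¬ En k → lf k = 0 := by
    intro k hk; rw [hlf]; simp only [if_neg hk]
  have hfz : ∀ k, ¬ En k → (∃ z ∈ Zs, z = k) → hf k = e0 := by
    intro k hk hz; rw [hhf]; simp only [if_neg hk, if_pos hz]
  have hf0 : ∀ k, ¬ En k → ¬ (∃ z ∈ Zs, z = k) → hf k = 0 := by
    intro k hk hz; rw [hhf]; simp only [if_neg hk, if_neg hz]
  have he0D : (e0 : ℝ) / D ≤ 2 * ε := by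
    rw [div_le_iff₀ hDR]; nlinarith
  have lf_near : ∀ k, |(lf k : ℝ) / D - p k| ≤ 2 * ε := by
    intro k
    by_cases hk : En k
    · obtain ⟨h1, h2⟩ := lf_bd k hk
      rw [abs_le]
      constructor
      · have : p k - 2 * ε ≤ (lf k : ℝ) / D := by rw [le_div_iff₀ hDR]; linarith
        linarith
      · have : (lf k : ℝ) / D ≤ p k - ε := by rw [div_le_iff₀ hDR]; linarith
        linarith
    · rw [lf0 k hk, pz k hk]
      simp only [Nat.cast_zero, zero_div, sub_zero, abs_zero]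
      linarith
  have hf_near : ∀ k, |(hf k : ℝ) / D - p k| ≤ 2 * ε := by
    intro k
    by_cases hk : En k
    · obtain ⟨h1, h2⟩ := hf_bd k hk
      rw [abs_le]
      constructor
      · have : p k + ε ≤ (hf k : ℝ) / D := by rw [le_div_iff₀ hDR]; linarith
        linarith
      · have : (hf k : ℝ) / D ≤ p k + 2 * ε := by rw [div_le_iff₀ hDR]; linarith
        linarith
    · rw [pz k hk, sub_zero]
      by_cases hz : ∃ z ∈ Zs, z = k
      · rw [hfz k hk hz, abs_of_nonneg (by positivity)]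
        exact he0D
      · rw [hf0 k hk hz]
        simp only [Nat.cast_zero, zero_div, abs_zero]
        linarith
  have hf_top : ∀ k, (hf k : ℝ) ≤ D * (1 - κ / 2) := by
    intro k
    by_cases hk : En k
    · obtain ⟨h1, h2⟩ := hf_bd k hk
      obtain ⟨h3, h4, h5, h6⟩ := pen k hk
      refine h2.trans (mul_le_mul_of_nonneg_left (by linarith) hDR.le)
    · by_cases hz : ∃ z ∈ Zs, z = k
      · rw [hfz k hk hz]
        have : (e0 : ℝ) ≤ D * (2 * ε) := by nlinarith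
        exact this.trans (mul_le_mul_of_nonneg_left (by linarith) hDR.le)
      · rw [hf0 k hk hz, Nat.cast_zero]
        exact mul_nonneg hDR.le (by linarith)
  have hf_lt : ∀ k, hf k < D := by
    intro k
    have h1 := hf_top k
    have : (hf k : ℝ) < D := by nlinarith
    exact_mod_cast this
  have lf_lt : ∀ k, lf k < D := by
    intro k
    by_cases hk : En k
    · have h1 := (lf_bd k hk).2
      obtain ⟨h3, h4, h5, h6⟩ := pen k hk
      have : (lf k : ℝ) < D := by nlinarith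
      exact_mod_cast this
    · rw [lf0 k hk]; exact hD0
  have hf_C : ∀ k, D ^ 2 ≤ Cc * (D - hf k) ^ 2 := by
    intro k
    have h1 := hf_top k
    have h2 : ((D - hf k : ℕ) : ℝ) = D - hf k := Nat.cast_sub (hf_lt k).le
    have h3 : D * (κ / 2) ≤ ((D - hf k : ℕ) : ℝ) := by rw [h2]; nlinarith
    have h4 : (D * (κ / 2)) ^ 2 ≤ ((D - hf k : ℕ) : ℝ) ^ 2 :=
      pow_le_pow_left₀ (by positivity) h3 2
    have h5 : ((D ^ 2 : ℕ) : ℝ) ≤ ((Cc * (D - hf k) ^ 2 : ℕ) : ℝ) := by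
      push_cast [-Nat.cast_sub]
      calc (D : ℝ) ^ 2 = 4 / κ ^ 2 * (D * (κ / 2)) ^ 2 := by field_simp; ring
        _ ≤ Cc * ((D - hf k : ℕ) : ℝ) ^ 2 :=
          mul_le_mul hCc h4 (by positivity) (by positivity)
    exact_mod_cast h5
  have enz : ∀ en ∈ ents, ¬ ∃ z ∈ Zs, z = en.1 := fun en hen => (H1 en hen).2.2
  have hEnm : ∀ en ∈ ents, En en.1 := by
    intro en hen; rw [hEn]; exact ⟨en, hen, rfl⟩
  have zEn : ∀ k, (∃ z ∈ Zs, z = k) → ¬ En k := by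
    intro k hz hk
    rw [hEn] at hk
    obtain ⟨en, hen, h⟩ := hk
    rw [← h] at hz
    exact enz en hen hz
  refine ⟨D, e0, Cc, Mg, (List.range n).map lf, (List.range n).map hf, (List.range n).map lf2,
    (List.range n).map hf2, he0, ⟨?_, ?_, ?_, ?_⟩, ?_, ?_, ⟨hD0, hMg0, ?_⟩, ?_⟩
  · intro k hk
    rw [ex_map n hf (List.mem_range.1 hk)]
    exact ⟨hf_lt k, hf_C k⟩
  · intro k hk hz
    rw [ex_map n hf (List.mem_range.1 hk), ex_map n lf (List.mem_range.1 hk)]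
    exact ⟨lf0 k (zEn k hz), hfz k (zEn k hz) hz⟩
  · intro k hk
    rw [ex_map n hf (List.mem_range.1 hk), ex_map n lf (List.mem_range.1 hk)]
    by_cases hz : ∃ z ∈ Zs, z = k
    · exact Or.inl (Or.inl hz)
    · by_cases hk' : En k
      · left; right
        rw [hEn] at hk'; exact hk'
      · exact Or.inr ⟨lf0 k hk', hf0 k hk' hz⟩
  · intro en hen
    have hn : en.1 < n := by have := (H1 en hen).2.1; omega
    rw [ex_map n hf hn, ex_map n lf hn]
    have hE := hEnm en hen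
    obtain ⟨h1, h2⟩ := lf_bd _ hE
    obtain ⟨h3, h4⟩ := hf_bd _ hE
    obtain ⟨h5, h6, h7, h8⟩ := pen _ hE
    refine ⟨enz en hen, ?_, ?_⟩
    · have : (0 : ℝ) < lf en.1 := by
        have : 0 < (D : ℝ) * (p en.1 - 2 * ε) := mul_pos hDR (by linarith)
        linarith
      exact_mod_cast this
    · have : (lf en.1 : ℝ) ≤ hf en.1 := by nlinarith
      exact_mod_cast this
  · -- okO
    intro en hen
    obtain ⟨g1, g2, -⟩ := H1 en hen
    have hn : en.1 < n := by omega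
    have hn1 : en.1 - 1 < n := by omega
    rw [ex_map n hf hn, ex_map n lf hn, ex_map n lf2 hn, ex_map n hf2 hn, ex_map n hf hn1,
      ex_map n hf g2, ex_map n lf hn1, ex_map n lf g2]
    have hE := hEnm en hen
    obtain ⟨h1, h2⟩ := lf2_bd _ hE
    obtain ⟨h3, h4⟩ := hf2_bd _ hE
    obtain ⟨h5, h6, h7, h8⟩ := pen _ hE
    have cl : ∀ k, ((D - lf k : ℕ) : ℝ) = D - lf k := fun k => Nat.cast_sub (lf_lt k).le
    have ch : ∀ k, ((D - hf k : ℕ) : ℝ) = D - hf k := fun k => Nat.cast_sub (hf_lt k).le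
    refine ⟨?_, ?_, ?_⟩
    · have key := (hε' en hen ((lf en.1 : ℝ) / D) ((hf (en.1 - 1) : ℝ) / D) ((hf (en.1 + 1) : ℝ) / D)
        (lf_near _) (hf_near _) (hf_near _)).1
      have h9 : (lf2 en.1 : ℝ) / D ≤ p en.1 - κ / 2 := by rw [div_le_iff₀ hDR]; linarith
      have h10 : (lf2 en.1 : ℝ) / D * (1 - (lf en.1 : ℝ) / D) ^ 2 ≤
          ((lf en.1 : ℝ) / D) ^ 2 * ((1 - (hf (en.1 - 1) : ℝ) / D) * (1 - (hf (en.1 + 1) : ℝ) / D)) :=
        (mul_le_mul_of_nonneg_right h9 (sq_nonneg _)).trans key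
      have h11 := mul_le_mul_of_nonneg_left h10 (show (0 : ℝ) ≤ (D : ℝ) ^ 4 by positivity)
      have e1 : (D : ℝ) ^ 4 * ((lf2 en.1 : ℝ) / D * (1 - (lf en.1 : ℝ) / D) ^ 2) =
          lf2 en.1 * D * (D - lf en.1) ^ 2 := by field_simp
      have e2 : (D : ℝ) ^ 4 * (((lf en.1 : ℝ) / D) ^ 2 *
          ((1 - (hf (en.1 - 1) : ℝ) / D) * (1 - (hf (en.1 + 1) : ℝ) / D))) =
          (lf en.1 : ℝ) ^ 2 * ((D - hf (en.1 - 1)) * (D - hf (en.1 + 1))) := by field_simp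
      rw [e1, e2, ← cl, ← ch, ← ch] at h11
      exact_mod_cast h11
    · have key := (hε' en hen ((hf en.1 : ℝ) / D) ((lf (en.1 - 1) : ℝ) / D) ((lf (en.1 + 1) : ℝ) / D)
        (hf_near _) (lf_near _) (lf_near _)).2
      have h9 : p en.1 + κ / 2 ≤ (hf2 en.1 : ℝ) / D := by rw [le_div_iff₀ hDR]; linarith
      have h10 : ((hf en.1 : ℝ) / D) ^ 2 * ((1 - (lf (en.1 - 1) : ℝ) / D) * (1 - (lf (en.1 + 1) : ℝ) / D))
          ≤ (hf2 en.1 : ℝ) / D * (1 - (hf en.1 : ℝ) / D) ^ 2 :=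
        key.trans (mul_le_mul_of_nonneg_right h9 (sq_nonneg _))
      have h11 := mul_le_mul_of_nonneg_left h10 (show (0 : ℝ) ≤ (D : ℝ) ^ 4 by positivity)
      have e1 : (D : ℝ) ^ 4 * ((hf2 en.1 : ℝ) / D * (1 - (hf en.1 : ℝ) / D) ^ 2) =
          hf2 en.1 * D * (D - hf en.1) ^ 2 := by field_simp
      have e2 : (D : ℝ) ^ 4 * (((hf en.1 : ℝ) / D) ^ 2 *
          ((1 - (lf (en.1 - 1) : ℝ) / D) * (1 - (lf (en.1 + 1) : ℝ) / D))) =
          (hf en.1 : ℝ) ^ 2 * ((D - lf (en.1 - 1)) * (D - lf (en.1 + 1))) := by field_simp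
      rw [e1, e2, ← ch, ← cl, ← cl] at h11
      exact_mod_cast h11
    · have : (hf2 en.1 : ℝ) ≤ D := h4.trans (by nlinarith)
      exact_mod_cast this
  · -- okM
    intro en hen m _ hm
    obtain ⟨g1, g2, -⟩ := H1 en hen
    have hn : en.1 < n := by omega
    rw [ex_map n hf hn, ex_map n lf hn, ex_map n lf2 hn, ex_map n hf2 hn] at hm
    have hE := hEnm en hen
    obtain ⟨X, hX⟩ : ∃ X : ℕ, X = Mg * D := ⟨_, rfl⟩
    have hX0 : 0 < X := by rw [hX]; exact Nat.mul_pos hMg0 hD0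
    have hXR : (0 : ℝ) < X := Nat.cast_pos.2 hX0
    have hXc : (X : ℝ) = Mg * D := by rw [hX]; push_cast; ring
    have hx : ε ≤ |(m : ℝ) / X - p en.1| ∧ |(m : ℝ) / X - p en.1| ≤ κ := by
      rcases hm with ⟨a1, a2⟩ | ⟨a1, a2⟩
      · have b1 : (lf2 en.1 : ℝ) * Mg ≤ m := by exact_mod_cast a1
        have b2 : (m : ℝ) ≤ lf en.1 * Mg := by exact_mod_cast a2
        have c1 : p en.1 - κ ≤ (m : ℝ) / X := by
          rw [le_div_iff₀ hXR, hXc]
          have := (lf2_bd _ hE).1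
          nlinarith
        have c2 : (m : ℝ) / X ≤ p en.1 - ε := by
          rw [div_le_iff₀ hXR, hXc]
          have := (lf_bd _ hE).2
          nlinarith
        rw [abs_of_nonpos (by linarith)]
        constructor <;> linarith
      · have b1 : (hf en.1 : ℝ) * Mg ≤ m := by exact_mod_cast a1
        have b2 : (m : ℝ) ≤ hf2 en.1 * Mg := by exact_mod_cast a2
        have c1 : p en.1 + ε ≤ (m : ℝ) / X := by
          rw [le_div_iff₀ hXR, hXc]
          have := (hf_bd _ hE).1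
          nlinarith
        have c2 : (m : ℝ) / X ≤ p en.1 + κ := by
          rw [div_le_iff₀ hXR, hXc]
          have := (hf2_bd _ hE).2
          nlinarith
        rw [abs_of_nonneg (by linarith)]
        constructor <;> linarith
    have hlow := hm1 en hen _ hx.1 hx.2
    have hP0 := P0_eq Zs en.1 N X m hX0 en.2.1 en.2.2 (H5 en hen)
    rw [← hX]
    have hnu : (nrm en.2.2 : ℝ) ≤ ν := by exact_mod_cast hν en hen
    have hP0' : (X : ℝ) ^ N * m0 ≤ |((P0 Zs en.1 N X m en.2.1 en.2.2 : ℤ) : ℝ)| := by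
      rw [hP0, abs_mul, abs_of_nonneg (by positivity : (0 : ℝ) ≤ (X : ℝ) ^ N)]
      exact mul_le_mul_of_nonneg_left hlow (by positivity)
    have hXN : (0 : ℝ) < (X : ℝ) ^ N := by positivity
    have t1 : (e0 : ℝ) * nrm en.2.2 * (X : ℝ) ^ N < D * (m0 / 2) * (X : ℝ) ^ N := by
      refine mul_lt_mul_of_pos_right ?_ hXN
      calc (e0 : ℝ) * nrm en.2.2 ≤ (δ * D) * ν :=
            mul_le_mul he0' hnu (Nat.cast_nonneg _) (by positivity)
        _ = D * (δ * ν) := by ring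
        _ < D * (m0 / 2) := mul_lt_mul_of_pos_left hδν hDR
    have t2 : (D : ℝ) * N * nrm en.2.2 * (X : ℝ) ^ (N - 1) ≤ D * (m0 / 2) * (X : ℝ) ^ N := by
      rcases Nat.eq_zero_or_pos N with h0 | h0
      · rw [h0]
        simp only [Nat.cast_zero, mul_zero, zero_mul, pow_zero, mul_one]
        positivity
      · have e1 : (X : ℝ) ^ N = X * (X : ℝ) ^ (N - 1) := by
          rw [← pow_succ']; congr 1; omega
        rw [e1]
        have h3 : (N : ℝ) * nrm en.2.2 ≤ m0 / 2 * X := by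
          calc (N : ℝ) * nrm en.2.2 ≤ N * ν := mul_le_mul_of_nonneg_left hnu (Nat.cast_nonneg _)
            _ ≤ m0 / 2 * Mg := hMg
            _ ≤ m0 / 2 * X := by
              refine mul_le_mul_of_nonneg_left ?_ (by positivity)
              rw [hXc]
              have : (1 : ℝ) ≤ D := by exact_mod_cast hD0
              nlinarith
        calc (D : ℝ) * N * nrm en.2.2 * (X : ℝ) ^ (N - 1)
            = D * (X : ℝ) ^ (N - 1) * (N * nrm en.2.2) := by ring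
          _ ≤ D * (X : ℝ) ^ (N - 1) * (m0 / 2 * X) := mul_le_mul_of_nonneg_left h3 (by positivity)
          _ = _ := by ring
    have hfin : (e0 : ℝ) * nrm en.2.2 * (X : ℝ) ^ N + D * N * nrm en.2.2 * (X : ℝ) ^ (N - 1) <
        D * ((P0 Zs en.1 N X m en.2.1 en.2.2).natAbs : ℝ) := by
      have e1 : ((P0 Zs en.1 N X m en.2.1 en.2.2).natAbs : ℝ) =
          |((P0 Zs en.1 N X m en.2.1 en.2.2 : ℤ) : ℝ)| := by
        rw [← Int.cast_abs, Int.abs_eq_natAbs]; simp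
      rw [e1]
      have h4 := mul_le_mul_of_nonneg_left hP0' hDR.le
      nlinarith
    exact_mod_cast hfin
  · -- okD
    have h1 : (e0 : ℝ) * (Cc : ℝ) ^ (2 * N * Zs.length + 1) ≤ D := by
      calc (e0 : ℝ) * (Cc : ℝ) ^ (2 * N * Zs.length + 1)
          ≤ (δ * D) * (Cc : ℝ) ^ (2 * N * Zs.length + 1) :=
            mul_le_mul_of_nonneg_right he0' hCcp.le
        _ = D * (δ * (Cc : ℝ) ^ (2 * N * Zs.length + 1)) := by ring
        _ ≤ D * 1 := mul_le_mul_of_nonneg_left hδC hDR.le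
        _ = D := mul_one _
    exact_mod_cast h1
  · intro en hen
    have hn : en.1 < n := by have := (H1 en hen).2.1; omega
    rw [ex_map n hf hn, ex_map n lf hn]
    have hE := hEnm en hen
    obtain ⟨h1, h2⟩ := lf_bd _ hE
    obtain ⟨h3, h4⟩ := hf_bd _ hE
    constructor <;> nlinarith

end Pool.Agent.Helper17.DF
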