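import Pool.Agent.Helper99.DF.St

/-!
# Project DF (MP_d49380_lc), module REL: the relation lemma
-/

set_option autoImplicit false

namespace Pool.Agent.Helper17.DF

open Filter Topology Pool.Agent.Helper99.DF

/-- exponent function of an index -/
def exf {W : Finset ℕ} {N : ℕ} (e : W → Fin (N + 1)) (k : ℕ) : ℕ :=
  if h : k ∈ W then (e ⟨k, h⟩ : ℕ) else 0

lemma exf_le {W : Finset ℕ} {N : ℕ} (e : W → Fin (N + 1)) (k : ℕ) : exf e k ≤ N := by
  unfold exf
  split
  · exact Nat.lt_succ_iff.1 (e _).2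
  · exact Nat.zero_le _

lemma exf_not {W : Finset ℕ} {N : ℕ} (e : W → Fin (N + 1)) {k : ℕ} (h : k ∉ W) : exf e k = 0 := by
  unfold exf
  rw [dif_neg h]

/-- the same as a finitely supported function -/
noncomputable def exs {W : Finset ℕ} {N : ℕ} (e : W → Fin (N + 1)) : ℕ →₀ ℕ :=
  Finsupp.onFinset W (exf e) (by
    intro k hk
    by_contra h
    exact hk (exf_not e h))

lemma exs_apply {W : Finset ℕ} {N : ℕ} (e : W → Fin (N + 1)) (k : ℕ) : exs e k = exf e k := rfl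

lemma exs_inj {W : Finset ℕ} {N : ℕ} : Function.Injective (exs : (W → Fin (N + 1)) → ℕ →₀ ℕ) := by
  intro e e' h
  funext x
  have h1 := DFunLike.congr_fun h (x : ℕ)
  rw [exs_apply, exs_apply] at h1
  unfold exf at h1
  rw [dif_pos x.2, dif_pos x.2] at h1
  exact Fin.ext h1

lemma AE_pow (h3 : StAE1) {K : IntermediateField ℚ ℝ} {Z : Finset ℕ} {c : ℕ → ℝ} {M : ℝ}
    (hc : ∀ k ∈ Z, 0 ≤ c k) (hM : 0 ≤ M) {f : ℕ → ℝ} (hf : AE K Z c M f) (n : ℕ) :
    AE K Z c M (fun t => f t ^ n) := by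
  obtain ⟨-, hmul, hone, -⟩ := h3 K Z c M hc hM
  induction n with
  | zero =>
    simp only [pow_zero]
    exact hone 1 (one_mem K)
  | succ n ih =>
    simp only [pow_succ]
    exact hmul _ _ ih hf

lemma AE_prod (h3 : StAE1) {K : IntermediateField ℚ ℝ} {Z : Finset ℕ} {c : ℕ → ℝ} {M : ℝ}
    (hc : ∀ k ∈ Z, 0 ≤ c k) (hM : 0 ≤ M) (W : Finset ℕ) (f : ℕ → ℕ → ℝ)
    (hf : ∀ k ∈ W, AE K Z c M (f k)) : AE K Z c M (fun t => ∏ k ∈ W, f k t) := by
  obtain ⟨-, hmul, hone, -⟩ := h3 K Z c M hc hM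
  induction W using Finset.induction_on with
  | empty =>
    simp only [Finset.prod_empty]
    exact hone 1 (one_mem K)
  | insert a W ha ih =>
    simp only [Finset.prod_insert ha]
    exact hmul _ _ (hf a (Finset.mem_insert_self a W))
      (ih fun k hk => hf k (Finset.mem_insert_of_mem hk))

/-- the polynomial with the coefficients `a` -/
noncomputable def PP {W : Finset ℕ} {N : ℕ} (a : (W → Fin (N + 1)) → ℤ) : MvPolynomial ℕ ℤ :=
  ∑ e, MvPolynomial.monomial (exs e) (a e)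

lemma PP_coeff {W : Finset ℕ} {N : ℕ} (a : (W → Fin (N + 1)) → ℤ) (e : W → Fin (N + 1)) :
    (PP a).coeff (exs e) = a e := by
  unfold PP
  rw [MvPolynomial.coeff_sum, Finset.sum_eq_single e]
  · rw [MvPolynomial.coeff_monomial, if_pos rfl]
  · intro e' _ h
    rw [MvPolynomial.coeff_monomial, if_neg (fun h' => h (exs_inj h'))]
  · intro h
    exact absurd (Finset.mem_univ _) h

lemma PP_support {W : Finset ℕ} {N : ℕ} (a : (W → Fin (N + 1)) → ℤ) {x : ℕ →₀ ℕ}
    (hx : x ∈ (PP a).support) : ∃ e : W → Fin (N + 1), exs e = x := by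
  by_contra h
  push Not at h
  rw [MvPolynomial.mem_support_iff] at hx
  apply hx
  unfold PP
  rw [MvPolynomial.coeff_sum]
  refine Finset.sum_eq_zero fun e _ => ?_
  rw [MvPolynomial.coeff_monomial, if_neg (h e)]

lemma PP_sum {W : Finset ℕ} {N : ℕ} (a : (W → Fin (N + 1)) → ℤ) (f : (ℕ →₀ ℕ) → ℤ) :
    ∑ x ∈ (PP a).support, (PP a).coeff x * f x = ∑ e, a e * f (exs e) := by
  classical
  have h1 : ∑ x ∈ (PP a).support, (PP a).coeff x * f x =
      ∑ x ∈ Finset.univ.image (exs : (W → Fin (N + 1)) → ℕ →₀ ℕ), (PP a).coeff x * f x := by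
    refine Finset.sum_subset ?_ ?_
    · intro x hx
      obtain ⟨e, he⟩ := PP_support a hx
      exact Finset.mem_image.2 ⟨e, Finset.mem_univ _, he⟩
    · intro x _ hx
      rw [MvPolynomial.notMem_support_iff.1 hx, zero_mul]
  rw [h1, Finset.sum_image (fun x _ y _ h => exs_inj h)]
  refine Finset.sum_congr rfl fun e _ => ?_
  rw [PP_coeff]

/-- the main factorisation for one site -/
lemma site_eq (al : ℕ → ℝ) (g : ℕ → ℝ) (τ : ℝ) (k n N : ℕ) (hn : n ≤ N) (x : ℕ → ℝ)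
    (hx : ∀ j, j = k ∨ j = k - 1 ∨ j = k + 1 → x j = g j * Real.exp (τ * al j)) :
    (x (k - 1) * x (k + 1)) ^ n * (x k ^ 2) ^ (N - n) =
      Real.exp (τ * (2 * N * al k)) *
        ((Real.exp (-(cc al k * τ)) * (g (k - 1) * g (k + 1))) ^ n * (g k ^ 2) ^ (N - n)) := by
  rw [hx k (Or.inl rfl), hx (k - 1) (Or.inr (Or.inl rfl)), hx (k + 1) (Or.inr (Or.inr rfl))]
  have e1 : g (k - 1) * Real.exp (τ * al (k - 1)) * (g (k + 1) * Real.exp (τ * al (k + 1))) =
      Real.exp (τ * (2 * al k)) * (Real.exp (-(cc al k * τ)) * (g (k - 1) * g (k + 1))) := by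
    have : Real.exp (τ * al (k - 1)) * Real.exp (τ * al (k + 1)) =
        Real.exp (τ * (2 * al k)) * Real.exp (-(cc al k * τ)) := by
      rw [← Real.exp_add, ← Real.exp_add]
      congr 1
      unfold cc
      ring
    calc _ = (Real.exp (τ * al (k - 1)) * Real.exp (τ * al (k + 1))) * (g (k - 1) * g (k + 1)) := by
          ring
      _ = _ := by rw [this]; ring
  have e2 : (g k * Real.exp (τ * al k)) ^ 2 = Real.exp (τ * (2 * al k)) * g k ^ 2 := by
    rw [mul_pow, ← Real.exp_nat_mul]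
    rw [mul_comm]
    congr 2
    push_cast
    ring
  rw [e1, e2, mul_pow, mul_pow (Real.exp (τ * (2 * al k))) (g k ^ 2)]
  have e3 : Real.exp (τ * (2 * N * al k)) =
      Real.exp (τ * (2 * al k)) ^ n * Real.exp (τ * (2 * al k)) ^ (N - n) := by
    rw [← pow_add, ← Real.exp_nat_mul]
    congr 1
    have : n + (N - n) = N := by omega
    rw [this]
    ring
  rw [e3]
  ring

theorem hREL (h1 : StALF) (h2 : StEXP) (h3 : StAE1) (h4 : StCNT) (h5 : StLIN) : StREL := by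
  classical
  intro S b0 al F Z c0 C hD J D m hJZ hD0 hrel i hi
  obtain ⟨hiS, hiZ⟩ := Finset.mem_sdiff.1 hi
  have hiJ : i ∉ J := fun h => hiZ (hJZ h)
  -- the field
  obtain ⟨K, hK⟩ : ∃ K : IntermediateField ℚ ℝ, K = IntermediateField.adjoin ℚ (F '' (S : Set ℕ)) :=
    ⟨_, rfl⟩
  have hFK : ∀ k ∈ S, F k ∈ K := fun k hk => by
    rw [hK]; exact IntermediateField.subset_adjoin _ _ ⟨k, hk, rfl⟩
  have hfd : FiniteDimensional ℚ K := by
    rw [hK]
    have : Finite (F '' (S : Set ℕ)) := (S.finite_toSet.image F).to_subtype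
    refine IntermediateField.finiteDimensional_adjoin ?_
    rintro x ⟨k, hk, rfl⟩
    exact isAlgebraic_iff_isIntegral.1 (h1 S _ al F Z c0 C hD k hk)
  have hcpos : ∀ k ∈ Z, 0 < cc al k := fun k hk => lt_of_lt_of_le hD.c0pos (hD.hZ k hk)
  have hcc : ∀ k ∈ Z, 0 ≤ cc al k := fun k hk => (hcpos k hk).le
  obtain ⟨W, hW⟩ : ∃ W, W = insert i J := ⟨_, rfl⟩
  have hWact : ∀ k ∈ W, k ∈ act S := by
    intro k hk
    rw [hW] at hk
    rcases Finset.mem_insert.1 hk with h | h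
    · rw [h]; exact hiS
    · exact hD.ZS (hJZ h)
  obtain ⟨C1, hC1⟩ := h4 Z J (cc al) D m hcpos hD0 hrel
  obtain ⟨A, hA⟩ : ∃ A : ℕ, 2 * ∑ k ∈ W, al k ≤ A := ⟨⌈2 * ∑ k ∈ W, al k⌉₊, Nat.le_ceil _⟩
  obtain ⟨N, hN⟩ : ∃ N : ℕ, N = Module.finrank ℚ K * (C1 * (A + 2)) ^ J.card := ⟨_, rfl⟩
  obtain ⟨V, hV1, hV2⟩ := hC1 (A * N + 1)
  obtain ⟨g, hg⟩ : ∃ g : ℕ → ℕ → ℝ, g = fun t k => gg (fun k => (b0 k : ℝ)) al t k := ⟨_, rfl⟩
  obtain ⟨Q, hQ⟩ : ∃ Q : (W → Fin (N + 1)) → ℕ → ℝ, Q = fun e t => ∏ k ∈ W,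
      (Real.exp (-(cc al k * 2 ^ t)) * (g t (k - 1) * g t (k + 1))) ^ (exf e k) *
        (g t k ^ 2) ^ (N - exf e k) := ⟨_, rfl⟩
  have hM0 : (0 : ℝ) ≤ ((A * N + 1 : ℕ) : ℝ) := Nat.cast_nonneg _
  have hgAE : ∀ k ∈ S, AE K Z (cc al) ((A * N + 1 : ℕ) : ℝ) (fun t => g t k) := by
    intro k hk
    rw [hg]
    exact h2 S _ al F Z c0 C K hD hFK _ k hk
  have hEAE : ∀ k ∈ W, AE K Z (cc al) ((A * N + 1 : ℕ) : ℝ) (fun t => Real.exp (-(cc al k * 2 ^ t))) := by
    intro k hk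
    obtain ⟨-, -, hone, hE⟩ := h3 K Z (cc al) _ hcc hM0
    rw [hW] at hk
    rcases Finset.mem_insert.1 hk with h | h
    · rw [h, hD.hY i hi]
      simp only [zero_mul, neg_zero, Real.exp_zero]
      exact hone 1 (one_mem K)
    · exact hE k (hJZ h)
  have hQAE : ∀ e, AE K Z (cc al) ((A * N + 1 : ℕ) : ℝ) (Q e) := by
    intro e
    rw [hQ]
    refine AE_prod h3 hcc hM0 W _ fun k hk => ?_
    have hk3 := mem_act.1 (hWact k hk)
    obtain ⟨-, hmul, -, -⟩ := h3 K Z (cc al) _ hcc hM0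
    exact hmul _ _ (AE_pow h3 hcc hM0 (hmul _ _ (hEAE k hk)
      (hmul _ _ (hgAE _ hk3.2.1) (hgAE _ hk3.2.2))) _)
      (AE_pow h3 hcc hM0 (AE_pow h3 hcc hM0 (hgAE _ hk3.1) 2) _)
  have hcard : Module.finrank ℚ K * V.card < Fintype.card (W → Fin (N + 1)) := by
    rw [Fintype.card_fun, Fintype.card_fin, Fintype.card_coe]
    have hWc : W.card = J.card + 1 := by rw [hW, Finset.card_insert_of_notMem hiJ]
    rw [hWc]
    have s1 : C1 * (A * N + 1 + 1) ≤ C1 * (A + 2) * (N + 1) := by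
      have : A * N + 1 + 1 ≤ (A + 2) * (N + 1) := by nlinarith
      calc C1 * (A * N + 1 + 1) ≤ C1 * ((A + 2) * (N + 1)) := Nat.mul_le_mul_left _ this
        _ = _ := by ring
    calc Module.finrank ℚ K * V.card
        ≤ Module.finrank ℚ K * (C1 * (A * N + 1 + 1)) ^ J.card := Nat.mul_le_mul_left _ hV1
      _ ≤ Module.finrank ℚ K * (C1 * (A + 2) * (N + 1)) ^ J.card :=
          Nat.mul_le_mul_left _ (Nat.pow_le_pow_left s1 _)
      _ = N * (N + 1) ^ J.card := by rw [mul_pow, ← mul_assoc, ← hN]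
      _ < (N + 1) ^ (J.card + 1) := by
          rw [pow_succ, mul_comm]
          exact Nat.mul_lt_mul_of_pos_left (Nat.lt_succ_self N) (by positivity)
  obtain ⟨a, ha0, C2, hC2⟩ := h5 K hfd Z (cc al) ((A * N + 1 : ℕ) : ℝ) V hcpos hV2
    (W → Fin (N + 1)) inferInstance Q hQAE hcard
  -- the integer relation
  obtain ⟨I, hI⟩ : ∃ I : ℕ → ℤ, I = fun t => ∑ e, a e * ∏ k ∈ W,
      (((T^[t] b0) (k - 1) * (T^[t] b0) (k + 1)) ^ (exf e k) *
        ((T^[t] b0) k ^ 2) ^ (N - exf e k)) := ⟨_, rfl⟩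
  have hIr : ∀ t, ((I t : ℤ) : ℝ) =
      Real.exp (2 ^ t * (2 * N * ∑ k ∈ W, al k)) * ∑ e, (a e : ℝ) * Q e t := by
    intro t
    rw [hI]
    push_cast
    rw [Finset.mul_sum]
    refine Finset.sum_congr rfl fun e _ => ?_
    have hx : ∀ j, (((T^[t] b0) j : ℤ) : ℝ) = g t j * Real.exp (2 ^ t * al j) := by
      intro j
      rw [hg]
      simp only [gg]
      rw [T_iter_cast, mul_assoc, ← Real.exp_add]
      have : -(2 ^ t * al j) + 2 ^ t * al j = 0 := by ring
      rw [this, Real.exp_zero, mul_one]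
    have hp : ∏ k ∈ W, (((((T^[t] b0) (k - 1) : ℤ) : ℝ) * (((T^[t] b0) (k + 1) : ℤ) : ℝ)) ^ (exf e k) *
        ((((T^[t] b0) k : ℤ) : ℝ) ^ 2) ^ (N - exf e k)) =
        Real.exp (2 ^ t * (2 * N * ∑ k ∈ W, al k)) * Q e t := by
      rw [hQ]
      simp only
      have he : Real.exp (2 ^ t * (2 * N * ∑ k ∈ W, al k)) =
          ∏ k ∈ W, Real.exp (2 ^ t * (2 * N * al k)) := by
        rw [← Real.exp_sum, Finset.mul_sum, Finset.mul_sum]
      rw [he, ← Finset.prod_mul_distrib]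
      refine Finset.prod_congr rfl fun k _ => ?_
      exact site_eq al (g t) (2 ^ t) k (exf e k) N (exf_le e k)
        (fun j => (((T^[t] b0) j : ℤ) : ℝ)) (fun j _ => hx j)
    rw [hp]
    ring
  have hI0 : ∀ᶠ t in atTop, I t = 0 := by
    have hb : ∀ t, |((I t : ℤ) : ℝ)| ≤ C2 * Real.exp (-(2 ^ t)) := by
      intro t
      rw [hIr t, abs_mul, abs_of_pos (Real.exp_pos _)]
      have e1 : Real.exp (2 ^ t * (2 * N * ∑ k ∈ W, al k)) ≤ Real.exp (2 ^ t * (N * A)) := by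
        apply Real.exp_le_exp.2
        refine mul_le_mul_of_nonneg_left ?_ (by positivity)
        calc 2 * (N : ℝ) * ∑ k ∈ W, al k = N * (2 * ∑ k ∈ W, al k) := by ring
          _ ≤ N * A := mul_le_mul_of_nonneg_left hA (Nat.cast_nonneg _)
      have e2 := hC2 t
      calc _ ≤ Real.exp (2 ^ t * (N * A)) * (C2 * Real.exp (-(((A * N + 1 : ℕ) : ℝ) * 2 ^ t))) :=
            mul_le_mul e1 e2 (abs_nonneg _) (Real.exp_pos _).le
        _ = C2 * (Real.exp (2 ^ t * (N * A)) * Real.exp (-(((A * N + 1 : ℕ) : ℝ) * 2 ^ t))) := by ring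
        _ = C2 * Real.exp (-(2 ^ t)) := by
            rw [← Real.exp_add]
            congr 2
            push_cast
            ring
    have hlim : Tendsto (fun t : ℕ => C2 * Real.exp (-(2 ^ t : ℝ))) atTop (𝓝 0) := by
      have h2t : Tendsto (fun t : ℕ => (2 : ℝ) ^ t) atTop atTop :=
        tendsto_pow_atTop_atTop_of_one_lt (by norm_num)
      have := (Real.tendsto_exp_neg_atTop_nhds_zero.comp h2t).const_mul C2
      simpa using this
    filter_upwards [hlim.eventually (gt_mem_nhds (show (0 : ℝ) < 1 by norm_num))] with t ht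
    have h6 : |((I t : ℤ) : ℝ)| < 1 := lt_of_le_of_lt (hb t) ht
    rw [← Int.cast_abs] at h6
    have h7 : |I t| < 1 := by exact_mod_cast h6
    exact Int.abs_lt_one_iff.1 h7
  refine ⟨N, PP a, ?_, ?_, ?_⟩
  · intro h0
    apply ha0
    funext e
    have := PP_coeff a e
    rw [h0, MvPolynomial.coeff_zero] at this
    exact this.symm
  · intro x hx
    obtain ⟨e, rfl⟩ := PP_support a hx
    refine ⟨fun k => by rw [exs_apply]; exact exf_le e k, fun k hk => ?_⟩
    rw [exs_apply] at hk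
    by_contra h
    rw [← hW] at h
    exact hk (exf_not e h)
  · filter_upwards [hI0] with t ht
    rw [PP_sum a (fun e => ∏ k ∈ insert i Z, (((T^[t] b0) (k - 1) * (T^[t] b0) (k + 1)) ^ (e k) *
          ((T^[t] b0) k ^ 2) ^ (N - e k)))]
    have hsplit : insert i Z = W ∪ (Z \ J) := by
      rw [hW]
      ext k
      simp only [Finset.mem_insert, Finset.mem_union, Finset.mem_sdiff]
      constructor
      · rintro (h | h)
        · exact Or.inl (Or.inl h)
        · by_cases hk : k ∈ J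
          · exact Or.inl (Or.inr hk)
          · exact Or.inr ⟨h, hk⟩
      · rintro ((h | h) | h)
        · exact Or.inl h
        · exact Or.inr (hJZ h)
        · exact Or.inr h.1
    have hdis : Disjoint W (Z \ J) := by
      rw [Finset.disjoint_left, hW]
      intro k hk hk2
      rcases Finset.mem_insert.1 hk with h | h
      · rw [h] at hk2
        exact hiZ (Finset.mem_sdiff.1 hk2).1
      · exact (Finset.mem_sdiff.1 hk2).2 h
    have hterm : ∀ e : W → Fin (N + 1), ∏ k ∈ insert i Z,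
        (((T^[t] b0) (k - 1) * (T^[t] b0) (k + 1)) ^ (exs e k) *
          ((T^[t] b0) k ^ 2) ^ (N - exs e k)) =
        (∏ k ∈ W, (((T^[t] b0) (k - 1) * (T^[t] b0) (k + 1)) ^ (exf e k) *
          ((T^[t] b0) k ^ 2) ^ (N - exf e k))) * ∏ k ∈ Z \ J, ((T^[t] b0) k ^ 2) ^ N := by
      intro e
      rw [hsplit, Finset.prod_union hdis]
      congr 1
      refine Finset.prod_congr rfl fun k hk => ?_
      rw [exs_apply, exf_not e (Finset.disjoint_right.1 hdis hk), pow_zero, one_mul, Nat.sub_zero]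
    calc ∑ e, a e * ∏ k ∈ insert i Z, (((T^[t] b0) (k - 1) * (T^[t] b0) (k + 1)) ^ (exs e k) *
          ((T^[t] b0) k ^ 2) ^ (N - exs e k))
        = (∑ e, a e * ∏ k ∈ W, (((T^[t] b0) (k - 1) * (T^[t] b0) (k + 1)) ^ (exf e k) *
          ((T^[t] b0) k ^ 2) ^ (N - exf e k))) * ∏ k ∈ Z \ J, ((T^[t] b0) k ^ 2) ^ N := by
          rw [Finset.sum_mul]
          refine Finset.sum_congr rfl fun e _ => ?_
          rw [hterm e]
          ring
      _ = 0 := by
          have : (∑ e, a e * ∏ k ∈ W, (((T^[t] b0) (k - 1) * (T^[t] b0) (k + 1)) ^ (exf e k) *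
            ((T^[t] b0) k ^ 2) ^ (N - exf e k))) = I t := by rw [hI]
          rw [this, ht, zero_mul]

end Pool.Agent.Helper17.DF
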